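import Pool.Agent.Lib_MP_e457e7_f4.Forest
import Pool.Agent.Lib_MP_e457e7_co_k.Core

/-!
Four arborescences can be recombined into two pairs such that at four prescribed vertices two given
pairs of arcs are split.
-/

set_option autoImplicit false
set_option linter.unusedSectionVars false

namespace Pool.Agent.LibE457f

open Finset Matrix Pool.Agent.LibE457k

variable {W α : Type*} [Fintype W] [DecidableEq W] [DecidableEq α]

theorem Psi_smul (t : W → Fin 4 → Option W) (c : W → ℂ) (τ : W → (Fin 4 → Fin 4) → ℂ) :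
    Psi t (fun v χ => c v * τ v χ) = (∏ v, c v) * Psi t τ := by
  unfold Psi
  rw [mul_sum]
  refine sum_congr rfl fun χ _ => ?_
  rw [prod_mul_distrib, mul_assoc]

theorem two_eps (χ : Fin 4 → Fin 4) : 2 * eps χ = ∑ z, GaussianInt.toComplex (gs z) *
    GaussianInt.toComplex (gf z (χ 0) (χ 1)) * GaussianInt.toComplex (gf z (χ 2) (χ 3)) := by
  have h := congrArg GaussianInt.toComplex (gf_sum χ)
  rw [map_mul, map_sum, RingHom.map_det] at h
  simp only [map_mul, map_ofNat] at h
  rw [← h]
  congr 1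
  unfold eps
  congr 1
  ext i j
  simp only [Matrix.of_apply, RingHom.mapMatrix_apply, Matrix.map_apply]
  split_ifs <;> simp

theorem gg_off_complex {x y z : Fin 6} (hxy : x < y) (hzx : z ≠ x) (hzy : z ≠ y) {a b : Fin 4}
    (hab : side a = side b) :
    ∑ k, ∑ l, GaussianInt.toComplex (gf z k l) *
      (GaussianInt.toComplex (gg x y k a) * GaussianInt.toComplex (gg x y l b)) = 0 := by
  have h := congrArg GaussianInt.toComplex (gg_off x y z hxy hzx hzy a b hab)
  rw [map_sum, map_zero] at h
  rw [← h]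
  refine sum_congr rfl fun k _ => ?_
  rw [map_sum]
  refine sum_congr rfl fun l _ => ?_
  rw [map_mul, map_mul, mul_assoc]

theorem exists_split (t : W → Fin 4 → Option W) (e0 : W → Equiv.Perm (Fin 4))
    (h : ∀ i, Rooted (fun v => t v ((e0 v).symm i))) (C : Finset W) (hC : C.card ≤ 4) :
    ∃ χ : W → Fin 4 → Fin 4, Dt t χ ≠ 0 ∧
      (∀ v ∈ C, side (χ v 0) ≠ side (χ v 1) ∧ side (χ v 2) ≠ side (χ v 3)) ∧
      (∀ v, v ∉ C → Function.Injective (χ v)) := by
  classical
  have h0 := Psi_eps_ne t e0 h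
  let T : W → Fin 6 → (Fin 4 → Fin 4) → ℂ := fun v z χ =>
    if v ∈ C then GaussianInt.toComplex (gs z) * GaussianInt.toComplex (gf z (χ 0) (χ 1)) *
      GaussianInt.toComplex (gf z (χ 2) (χ 3)) else if z = 0 then eps χ else 0
  have hT : (fun v χ => ∑ z, T v z χ) = fun v χ => (if v ∈ C then (2 : ℂ) else 1) * eps χ := by
    funext v χ
    by_cases hv : v ∈ C
    · simp only [T, if_pos hv]
      rw [two_eps]
    · simp only [T, if_neg hv]
      simp
  have h1 : Psi t (fun v χ => ∑ z, T v z χ) ≠ 0 := by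
    rw [hT, Psi_smul]
    refine mul_ne_zero (prod_ne_zero_iff.2 fun v _ => ?_) h0
    split_ifs <;> norm_num
  rw [Psi_sum] at h1
  obtain ⟨z, _, hz⟩ := exists_ne_zero_of_sum_ne_zero h1
  have hex : ∃ x y : Fin 6, x < y ∧ x ∉ C.image z ∧ y ∉ C.image z := by
    have h2 : 1 < (univ \ C.image z).card := by
      have h3 : (C.image z).card ≤ 4 := card_image_le.trans hC
      have h4 := card_sdiff_add_card_eq_card (subset_univ (C.image z))
      have h5 : (univ : Finset (Fin 6)).card = 6 := by simp
      omega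
    obtain ⟨x, hx, y, hy, hxy⟩ := one_lt_card.1 h2
    rcases lt_or_gt_of_ne hxy with h3 | h3
    · exact ⟨x, y, h3, (mem_sdiff.1 hx).2, (mem_sdiff.1 hy).2⟩
    · exact ⟨y, x, h3, (mem_sdiff.1 hy).2, (mem_sdiff.1 hx).2⟩
  obtain ⟨x, y, hxy, hx, hy⟩ := hex
  let g : Matrix (Fin 4) (Fin 4) ℂ := Matrix.of fun i j => GaussianInt.toComplex (gg x y i j)
  have hg : g.det ≠ 0 := by
    have h2 : g.det = GaussianInt.toComplex (Matrix.of (gg x y)).det := by
      rw [RingHom.map_det]
      rfl
    rw [h2]
    intro h3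
    exact gg_det x y (GaussianInt.toComplex_eq_zero.1 h3)
  have h2 : Psi t (fun v => act g (T v (z v))) ≠ 0 := by
    rw [Psi_act]
    exact mul_ne_zero (pow_ne_zero _ hg) hz
  unfold Psi at h2
  obtain ⟨χ, _, hχ⟩ := exists_ne_zero_of_sum_ne_zero h2
  have hD : Dt t χ ≠ 0 := right_ne_zero_of_mul hχ
  have hv : ∀ v, act g (T v (z v)) (χ v) ≠ 0 := fun v =>
    prod_ne_zero_iff.1 (left_ne_zero_of_mul hχ) v (mem_univ v)
  refine ⟨χ, hD, ?_, ?_⟩
  · intro v hvC
    have h3 := hv v
    have hzx : z v ≠ x := fun h => hx (mem_image.2 ⟨v, hvC, h⟩)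
    have hzy : z v ≠ y := fun h => hy (mem_image.2 ⟨v, hvC, h⟩)
    have h4 : act g (T v (z v)) (χ v) = GaussianInt.toComplex (gs (z v)) *
        ((∑ a, ∑ b, GaussianInt.toComplex (gf (z v) a b) * (g a (χ v 0) * g b (χ v 1))) *
        ∑ a, ∑ b, GaussianInt.toComplex (gf (z v) a b) * (g a (χ v 2) * g b (χ v 3))) := by
      rw [← sum_four, mul_sum]
      unfold act
      refine sum_congr rfl fun η _ => ?_
      simp only [T, if_pos hvC, Fin.prod_univ_four]
      ring
    rw [h4] at h3
    have h5 := right_ne_zero_of_mul h3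
    constructor
    · intro h6
      exact left_ne_zero_of_mul h5 (gg_off_complex hxy hzx hzy h6)
    · intro h6
      exact right_ne_zero_of_mul h5 (gg_off_complex hxy hzx hzy h6)
  · intro v hvC
    have h3 := hv v
    by_cases hz0 : z v = 0
    · have h4 : T v (z v) = eps := by
        funext η
        simp only [T, if_neg hvC, if_pos hz0]
      rw [h4] at h3
      unfold act at h3
      rw [eps_trans] at h3
      exact eps_inj (right_ne_zero_of_mul h3)
    · exfalso
      apply h3
      unfold act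
      refine sum_eq_zero fun η _ => ?_
      simp only [T, if_neg hvC, if_neg hz0, zero_mul]

theorem perm_pair : ∀ i j : Fin 4, i ≠ j → ∃ ρ : Equiv.Perm (Fin 4), ρ 0 = i ∧ ρ 1 = j := by
  decide

theorem two_of_split : ∀ s : Fin 4 → Bool, s 0 ≠ s 1 → s 2 ≠ s 3 → ∀ b,
    (univ.filter (fun j => s j = b)).card = 2 := by
  decide

theorem two_of_inj {χ : Fin 4 → Fin 4} (h : Function.Injective χ) (b : Bool) :
    (univ.filter (fun j => side (χ j) = b)).card = 2 := by
  have h1 : (univ.filter (fun j => side (χ j) = b)).card =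
      (univ.filter (fun j => side j = b)).card := by
    let e := Equiv.ofBijective χ (Finite.injective_iff_bijective.1 h)
    refine card_bij (fun j _ => χ j) ?_ ?_ ?_
    · intro j hj
      exact mem_filter.2 ⟨mem_univ _, (mem_filter.1 hj).2⟩
    · intro i _ j _ hij
      exact h hij
    · intro k hk
      refine ⟨e.symm k, mem_filter.2 ⟨mem_univ _, ?_⟩, e.apply_symm_apply k⟩
      have h2 : χ (e.symm k) = k := e.apply_symm_apply k
      rw [h2]
      exact (mem_filter.1 hk).2
  rw [h1]
  cases b <;> decide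

theorem bal_of_split : ∀ P s : Fin 4 → Bool, P 0 = P 1 → s 0 ≠ s 1 → s 2 ≠ s 3 → ∀ b,
    (univ.filter (fun j => P j = true ∧ s j = b)).card ≤
      (univ.filter (fun j => P j = true ∧ s j = !b)).card + 1 := by
  decide

theorem card_perm (ρ : Equiv.Perm (Fin 4)) (P : Fin 4 → Prop) [DecidablePred P] :
    (univ.filter (fun i => P (ρ.symm i))).card = (univ.filter P).card := by
  refine card_bij (fun i _ => ρ.symm i) ?_ ?_ ?_
  · intro i hi
    exact mem_filter.2 ⟨mem_univ _, (mem_filter.1 hi).2⟩
  · intro i _ j _ hij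
    exact ρ.symm.injective hij
  · intro j hj
    refine ⟨ρ j, mem_filter.2 ⟨mem_univ _, ?_⟩, ρ.symm_apply_apply j⟩
    rw [ρ.symm_apply_apply]
    exact (mem_filter.1 hj).2

theorem core_four (π : Fin 4 → W → Option W) (hπ : ∀ i, Rooted (π i)) (lab : Fin 4 → W → α)
    (hC : (univ.filter (fun v => (∃ i j, π i v ≠ π j v) ∧
      ∃ i j, i ≠ j ∧ lab i v = lab j v)).card ≤ 4) :
    ∃ χ : Fin 4 × W → Bool,
      (∀ b v, (univ.filter (fun i => χ (i, v) = b)).card = 2) ∧
      (∀ b v a, (univ.filter (fun i => lab i v = a ∧ χ (i, v) = b)).card ≤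
        (univ.filter (fun i => lab i v = a ∧ χ (i, v) = !b)).card + 1) ∧
      (∀ b, ∀ Y : Finset W, Y.Nonempty →
        ((inn π Y).filter (fun p => χ p = b)).card ≤ 2 * (Y.card - 1)) := by
  classical
  set C := univ.filter (fun v => (∃ i j, π i v ≠ π j v) ∧ ∃ i j, i ≠ j ∧ lab i v = lab j v)
    with hCdef
  have hρ : ∀ v, ∃ ρ : Equiv.Perm (Fin 4), (∃ i j, i ≠ j ∧ lab i v = lab j v) →
      lab (ρ 0) v = lab (ρ 1) v := by
    intro v
    by_cases h : ∃ i j, i ≠ j ∧ lab i v = lab j v
    · obtain ⟨i, j, hij, hl⟩ := h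
      obtain ⟨ρ, h0, h1⟩ := perm_pair i j hij
      exact ⟨ρ, fun _ => by rw [h0, h1, hl]⟩
    · exact ⟨1, fun h' => absurd h' h⟩
  choose ρ hρ using hρ
  let t : W → Fin 4 → Option W := fun v j => π (ρ v j) v
  have ht : ∀ v i, t v ((ρ v).symm i) = π i v := by
    intro v i
    simp only [t, Equiv.apply_symm_apply]
  obtain ⟨χ, hD, hχC, hχI⟩ := exists_split t ρ (fun i => by
    have h1 : (fun v => t v ((ρ v).symm i)) = π i := funext fun v => ht v i
    rw [h1]
    exact hπ i) C hC
  let par : W → Prop := fun v => ∀ i j, π i v = π j v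
  have hparI : ∀ v, par v → Function.Injective (χ v) := by
    intro v hv
    refine hχI v fun h => ?_
    obtain ⟨_, ⟨i, j, hij⟩, _⟩ := mem_filter.1 h
    exact hij (hv i j)
  let cls : W → Fin 4 → Bool := fun v j => if par v then decide (j = 0 ∨ j = 2) else side (χ v j)
  have hcls1 : ∀ v, par v → cls v = fun j => decide (j = 0 ∨ j = 2) := by
    intro v hv
    funext j
    simp only [cls, if_pos hv]
  have hcls2 : ∀ v, ¬ par v → cls v = fun j => side (χ v j) := by
    intro v hv
    funext j
    simp only [cls, if_neg hv]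
  have hsp : ∀ v, (∃ i j, i ≠ j ∧ lab i v = lab j v) → cls v 0 ≠ cls v 1 ∧ cls v 2 ≠ cls v 3 := by
    intro v hv
    by_cases hp : par v
    · rw [hcls1 v hp]
      decide
    · rw [hcls2 v hp]
      refine hχC v (mem_filter.2 ⟨mem_univ _, ?_, hv⟩)
      by_contra h
      push Not at h
      exact hp h
  have htwo : ∀ v b, (univ.filter (fun j => cls v j = b)).card = 2 := by
    intro v b
    by_cases hp : par v
    · rw [hcls1 v hp]
      cases b <;> decide
    · by_cases hl : ∃ i j, i ≠ j ∧ lab i v = lab j v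
      · exact two_of_split (cls v) (hsp v hl).1 (hsp v hl).2 b
      · rw [hcls2 v hp]
        refine two_of_inj (hχI v fun h => hl (mem_filter.1 h).2.2) b
  refine ⟨fun p => cls p.2 ((ρ p.2).symm p.1), ?_, ?_, ?_⟩
  · intro b v
    exact (card_perm (ρ v) (fun j => cls v j = b)).trans (htwo v b)
  · intro b v a
    by_cases hl : ∃ i j, i ≠ j ∧ lab i v = lab j v
    · have h1 : ∀ b', (univ.filter (fun i => lab i v = a ∧ cls v ((ρ v).symm i) = b')).card =
          (univ.filter (fun j => decide (lab (ρ v j) v = a) = true ∧ cls v j = b')).card := by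
        intro b'
        rw [← card_perm (ρ v) (fun j => decide (lab (ρ v j) v = a) = true ∧ cls v j = b')]
        congr 1
        refine filter_congr fun i _ => ?_
        simp
      have h2 := bal_of_split (fun j => decide (lab (ρ v j) v = a)) (cls v)
        (by simp only [hρ v hl]) (hsp v hl).1 (hsp v hl).2 b
      rw [← h1 b, ← h1 (!b)] at h2
      exact h2
    · have h1 : (univ.filter (fun i => lab i v = a ∧ cls v ((ρ v).symm i) = b)).card ≤ 1 := by
        rw [card_le_one]
        intro i hi j hj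
        by_contra hij
        exact hl ⟨i, j, hij, (mem_filter.1 hi).2.1.trans (mem_filter.1 hj).2.1.symm⟩
      exact h1.trans (Nat.le_add_left _ _)
  · intro b Y hY
    rw [card_inn_fiber]
    have hfib : ∀ v, (univ.filter (fun i => (∃ u ∈ Y, π i v = some u) ∧
        cls v ((ρ v).symm i) = b)).card =
        (univ.filter (fun j => (∃ u ∈ Y, t v j = some u) ∧ side (χ v j) = b)).card := by
      intro v
      have h1 : (univ.filter (fun i => (∃ u ∈ Y, π i v = some u) ∧
          cls v ((ρ v).symm i) = b)).card =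
          (univ.filter (fun j => (∃ u ∈ Y, t v j = some u) ∧ cls v j = b)).card := by
        rw [← card_perm (ρ v) (fun j => (∃ u ∈ Y, t v j = some u) ∧ cls v j = b)]
        congr 1
        refine filter_congr fun i _ => ?_
        rw [ht v i]
      rw [h1]
      by_cases hp : par v
      · by_cases hu : ∃ u ∈ Y, π 0 v = some u
        · have h2 : ∀ j, ∃ u ∈ Y, t v j = some u := by
            intro j
            obtain ⟨u, hu1, hu2⟩ := hu
            exact ⟨u, hu1, (hp _ _).trans hu2⟩
          simp only [h2, true_and]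
          rw [htwo, two_of_inj (hparI v hp)]
        · have h2 : ∀ j, ¬ ∃ u ∈ Y, t v j = some u := by
            rintro j ⟨u, hu1, hu2⟩
            exact hu ⟨u, hu1, (hp _ _).trans hu2⟩
          simp only [h2, false_and]
      · rw [hcls2 v hp]
    change ∑ v ∈ Y, (univ.filter (fun i => (∃ u ∈ Y, π i v = some u) ∧
      cls v ((ρ v).symm i) = b)).card ≤ _
    rw [sum_congr rfl fun v _ => hfib v]
    have hfib2 : ∀ v, (univ.filter (fun j => (∃ u ∈ Y, t v j = some u) ∧
        side (χ v j) = b)).card = ∑ k ∈ univ.filter (fun k => side k = b),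
        (univ.filter (fun j => χ v j = k ∧ ∃ u ∈ Y, t v j = some u)).card := by
      intro v
      rw [card_eq_sum_card_fiberwise (f := fun j => χ v j) (t := univ.filter (fun k => side k = b))]
      · refine sum_congr rfl fun k hk => ?_
        have hk' : side k = b := (mem_filter.1 hk).2
        congr 1
        ext j
        simp only [mem_filter, mem_univ, true_and]
        constructor
        · rintro ⟨⟨h1, _⟩, h3⟩
          exact ⟨h3, h1⟩
        · rintro ⟨h1, h2⟩
          exact ⟨⟨h2, by rw [h1]; exact hk'⟩, h1⟩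
      · intro j hj
        exact mem_coe.2 (mem_filter.2 ⟨mem_univ _, (mem_filter.1 (mem_coe.1 hj)).2.2⟩)
    rw [sum_congr rfl fun v _ => hfib2 v, sum_comm]
    have hk : ∀ k, ∑ v ∈ Y, (univ.filter (fun j => χ v j = k ∧ ∃ u ∈ Y, t v j = some u)).card ≤
        Y.card - 1 := by
      intro k
      have h1 := card_lt_of_Dt_ne hD k hY
      have h2 : (univ.filter (fun p : W × Fin 4 => p.1 ∈ Y ∧ χ p.1 p.2 = k ∧
          ∃ u ∈ Y, t p.1 p.2 = some u)).card =
          ∑ v ∈ Y, (univ.filter (fun j => χ v j = k ∧ ∃ u ∈ Y, t v j = some u)).card := by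
        rw [← card_sigma]
        refine card_bij (fun p _ => (⟨p.1, p.2⟩ : (_ : W) × Fin 4)) ?_ ?_ ?_
        · intro p hp
          obtain ⟨_, h1, h2⟩ := mem_filter.1 hp
          exact mem_sigma.2 ⟨h1, mem_filter.2 ⟨mem_univ _, h2⟩⟩
        · intro p _ q _ hpq
          simp only [Sigma.mk.injEq, heq_eq_eq] at hpq
          exact Prod.ext hpq.1 hpq.2
        · rintro ⟨v, j⟩ hx
          obtain ⟨h1, h2⟩ := mem_sigma.1 hx
          exact ⟨(v, j), mem_filter.2 ⟨mem_univ _, h1, (mem_filter.1 h2).2⟩, rfl⟩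
      rw [h2] at h1
      omega
    refine (sum_le_sum fun k _ => hk k).trans ?_
    rw [sum_const, smul_eq_mul]
    have h3 : (univ.filter (fun k : Fin 4 => side k = b)).card = 2 := by
      cases b <;> decide
    rw [h3]

end Pool.Agent.LibE457f
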