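import Pool.Agent.Lib_MP_e457e7_f4.Gam

/-!
The determinant of arcs tensor colour vectors, its multilinear expansion and its invariance.
-/

set_option autoImplicit false
set_option linter.unusedSectionVars false

namespace Pool.Agent.LibE457f

open Finset Matrix

/-- Expansion of a determinant whose rows are linear combinations. -/
theorem det_expand {I K : Type*} [Fintype I] [DecidableEq I] [Fintype K] [DecidableEq K]
    (c : I → K → ℂ) (R : I → K → I → ℂ) :
    (Matrix.of fun p q => ∑ i, c p i * R p i q).det =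
      ∑ χ : I → K, (∏ p, c p (χ p)) * (Matrix.of fun p q => R p (χ p) q).det := by
  have h1 : (Matrix.of fun p q => ∑ i, c p i * R p i q).det =
      Matrix.detRowAlternating (R := ℂ) (n := I) (fun p => ∑ i, c p i • R p i) := by
    change Matrix.detRowAlternating (R := ℂ) (n := I) _ = _
    congr 1
    funext p q
    simp [Matrix.of_apply, Finset.sum_apply]
  rw [h1]
  have h2 := (Matrix.detRowAlternating (R := ℂ) (n := I)).toMultilinearMap.map_sum
    (fun p i => c p i • R p i)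
  have h3 : (Matrix.detRowAlternating (R := ℂ) (n := I)) (fun p => ∑ i, c p i • R p i) =
      ∑ χ : I → K, (Matrix.detRowAlternating (R := ℂ) (n := I)) (fun p => c p (χ p) • R p (χ p)) :=
    h2
  rw [h3]
  refine sum_congr rfl fun χ _ => ?_
  have h4 := (Matrix.detRowAlternating (R := ℂ) (n := I)).toMultilinearMap.map_smul_univ
    (fun p => c p (χ p)) (fun p => R p (χ p))
  have h5 : (Matrix.detRowAlternating (R := ℂ) (n := I)) (fun p => c p (χ p) • R p (χ p)) =
      (∏ p, c p (χ p)) • (Matrix.detRowAlternating (R := ℂ) (n := I)) (fun p => R p (χ p)) := h4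
  rw [h5, smul_eq_mul]
  rfl

/-- the sign of a map `Fin 4 → Fin 4`, zero if it is not bijective -/
noncomputable def eps (χ : Fin 4 → Fin 4) : ℂ :=
  (Matrix.of fun i j => if j = χ i then (1 : ℂ) else 0).det

theorem eps_inj {χ : Fin 4 → Fin 4} (h : eps χ ≠ 0) : Function.Injective χ := by
  intro i j hij
  by_contra hne
  apply h
  unfold eps
  refine Matrix.det_zero_of_row_eq hne ?_
  funext k
  simp only [Matrix.of_apply, hij]

theorem eps_trans (g : Matrix (Fin 4) (Fin 4) ℂ) (χ' : Fin 4 → Fin 4) :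
    ∑ χ : Fin 4 → Fin 4, eps χ * ∏ j, g (χ j) (χ' j) = g.det * eps χ' := by
  have h := det_expand (I := Fin 4) (K := Fin 4) (fun j k => g k (χ' j))
    (fun _ k q => if q = k then 1 else 0)
  have h1 : (Matrix.of fun (p q : Fin 4) => ∑ i, g i (χ' p) * (if q = i then (1 : ℂ) else 0)) =
      (Matrix.of fun i j => if j = χ' i then (1 : ℂ) else 0) * gᵀ := by
    ext p q
    simp [Matrix.mul_apply, Matrix.of_apply]
  rw [h1, Matrix.det_mul, Matrix.det_transpose] at h
  have h2 : g.det * eps χ' = ∑ χ : Fin 4 → Fin 4, (∏ p, g (χ p) (χ' p)) *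
      (Matrix.of fun (p q : Fin 4) => if q = χ p then (1 : ℂ) else 0).det := by
    rw [← h, mul_comm]
    rfl
  rw [h2]
  refine sum_congr rfl fun χ _ => ?_
  rw [mul_comm]
  rfl

variable {W : Type*} [Fintype W] [DecidableEq W]

/-- the incidence vector of an arc with head `v` and tail `o` -/
def xr (v : W) (o : Option W) (u : W) : ℂ :=
  (if v = u then 1 else 0) - (if o = some u then 1 else 0)

/-- the determinant of arcs tensor colour vectors -/
noncomputable def DD (t : W → Fin 4 → Option W) (c : W → Fin 4 → Fin 4 → ℂ) : ℂ :=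
  (Matrix.of fun (p q : W × Fin 4) => xr p.1 (t p.1 p.2) q.1 * c p.1 p.2 q.2).det

/-- the determinant of a colouring -/
noncomputable def Dt (t : W → Fin 4 → Option W) (χ : W → Fin 4 → Fin 4) : ℂ :=
  DD t (fun v j i => if i = χ v j then 1 else 0)

theorem DD_expand (t : W → Fin 4 → Option W) (c : W → Fin 4 → Fin 4 → ℂ) :
    DD t c = ∑ χ : W → Fin 4 → Fin 4, (∏ v, ∏ j, c v j (χ v j)) * Dt t χ := by
  have h := det_expand (I := W × Fin 4) (K := Fin 4) (fun p i => c p.1 p.2 i)
    (fun p i q => xr p.1 (t p.1 p.2) q.1 * (if q.2 = i then 1 else 0))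
  have h1 : (Matrix.of fun (p q : W × Fin 4) => ∑ i, c p.1 p.2 i *
      (xr p.1 (t p.1 p.2) q.1 * (if q.2 = i then (1 : ℂ) else 0))) =
      Matrix.of fun (p q : W × Fin 4) => xr p.1 (t p.1 p.2) q.1 * c p.1 p.2 q.2 := by
    ext p q
    simp only [Matrix.of_apply, mul_ite, mul_one, mul_zero, sum_ite_eq, mem_univ, if_true]
    ring
  rw [h1] at h
  unfold DD
  rw [h]
  refine Fintype.sum_equiv (Equiv.curry W (Fin 4) (Fin 4)) _ _ fun χ => ?_
  rw [Fintype.prod_prod_type]
  rfl

theorem DD_mul (t : W → Fin 4 → Option W) (c : W → Fin 4 → Fin 4 → ℂ)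
    (g : Matrix (Fin 4) (Fin 4) ℂ) :
    DD t (fun v j i => ∑ k, c v j k * g k i) = g.det ^ Fintype.card W * DD t c := by
  have h1 : (Matrix.of fun (p q : W × Fin 4) => xr p.1 (t p.1 p.2) q.1 *
      ∑ k, c p.1 p.2 k * g k q.2) =
      (Matrix.of fun (p q : W × Fin 4) => xr p.1 (t p.1 p.2) q.1 * c p.1 p.2 q.2) *
      Matrix.kroneckerMap (· * ·) (1 : Matrix W W ℂ) g := by
    ext p q
    rw [Matrix.mul_apply, Fintype.sum_prod_type]
    simp only [Matrix.of_apply, Matrix.kroneckerMap_apply, Matrix.one_apply]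
    rw [Finset.sum_eq_single q.1]
    · rw [mul_sum]
      refine sum_congr rfl fun k _ => ?_
      simp only [if_true]
      ring
    · intro u _ hu
      refine sum_eq_zero fun k _ => ?_
      simp [hu]
    · intro h
      exact absurd (mem_univ _) h
  unfold DD
  rw [h1, Matrix.det_mul, Matrix.det_kronecker]
  simp only [Matrix.det_one, one_pow, one_mul]
  ring

/-- the value of the invariant at a family of tensors -/
noncomputable def Psi (t : W → Fin 4 → Option W) (τ : W → (Fin 4 → Fin 4) → ℂ) : ℂ :=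
  ∑ χ : W → Fin 4 → Fin 4, (∏ v, τ v (χ v)) * Dt t χ

/-- the action of a matrix on tensors -/
noncomputable def act (g : Matrix (Fin 4) (Fin 4) ℂ) (τ : (Fin 4 → Fin 4) → ℂ)
    (χ' : Fin 4 → Fin 4) : ℂ :=
  ∑ χ : Fin 4 → Fin 4, τ χ * ∏ j, g (χ j) (χ' j)

theorem Psi_act (t : W → Fin 4 → Option W) (τ : W → (Fin 4 → Fin 4) → ℂ)
    (g : Matrix (Fin 4) (Fin 4) ℂ) :
    Psi t (fun v => act g (τ v)) = g.det ^ Fintype.card W * Psi t τ := by
  unfold Psi act
  have h1 : ∀ χ' : W → Fin 4 → Fin 4,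
      (∏ v, ∑ χ : Fin 4 → Fin 4, τ v χ * ∏ j, g (χ j) (χ' v j)) * Dt t χ' =
      ∑ χ : W → Fin 4 → Fin 4, (∏ v, τ v (χ v)) *
        ((∏ v, ∏ j, g (χ v j) (χ' v j)) * Dt t χ') := by
    intro χ'
    rw [Finset.prod_univ_sum, Fintype.piFinset_univ, sum_mul]
    refine sum_congr rfl fun χ _ => ?_
    rw [prod_mul_distrib]
    ring
  simp only [h1]
  rw [sum_comm, mul_sum]
  refine sum_congr rfl fun χ _ => ?_
  rw [← mul_sum]
  have h2 := DD_expand t (fun v j i => g (χ v j) i)
  rw [← h2]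
  have h3 := DD_mul t (fun v j i => if i = χ v j then 1 else 0) g
  have h4 : DD t (fun v j i => g (χ v j) i) = DD t (fun v j i => ∑ k,
      (if k = χ v j then (1 : ℂ) else 0) * g k i) := by
    congr 1
    funext v j i
    simp
  rw [h4, h3]
  unfold Dt
  ring

theorem Psi_sum {Z : Type*} [Fintype Z] [DecidableEq Z] (t : W → Fin 4 → Option W)
    (T : W → Z → (Fin 4 → Fin 4) → ℂ) :
    Psi t (fun v χ => ∑ z, T v z χ) = ∑ z : W → Z, Psi t (fun v => T v (z v)) := by
  unfold Psi
  rw [sum_comm]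
  refine sum_congr rfl fun χ _ => ?_
  rw [Finset.prod_univ_sum, Fintype.piFinset_univ, sum_mul]

theorem sum_four (F G : Fin 4 → Fin 4 → ℂ) :
    ∑ χ : Fin 4 → Fin 4, F (χ 0) (χ 1) * G (χ 2) (χ 3) =
      (∑ a, ∑ b, F a b) * ∑ a, ∑ b, G a b := by
  have h : ∑ χ : Fin 4 → Fin 4, F (χ 0) (χ 1) * G (χ 2) (χ 3) =
      ∑ p : (Fin 4 × Fin 4) × (Fin 4 × Fin 4), F p.1.1 p.1.2 * G p.2.1 p.2.2 := by
    refine Fintype.sum_equiv ⟨fun χ => ((χ 0, χ 1), (χ 2, χ 3)),
      fun p => ![p.1.1, p.1.2, p.2.1, p.2.2], ?_, ?_⟩ _ _ fun χ => rfl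
    · intro χ
      funext i
      fin_cases i <;> rfl
    · intro p
      rfl
  rw [h, Fintype.sum_prod_type, ← Fintype.sum_prod_type' (f := F),
    ← Fintype.sum_prod_type' (f := G), Finset.sum_mul_sum]

end Pool.Agent.LibE457f
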