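import Pool.Agent.Lib_MP_e457e7_f4.Pos

/-!
A colouring with nonzero determinant has forests as colour classes.
-/

set_option autoImplicit false
set_option linter.unusedSectionVars false

namespace Pool.Agent.LibE457f

open Finset Matrix

variable {W : Type*} [Fintype W] [DecidableEq W]

theorem card_lt_of_Dt_ne {t : W → Fin 4 → Option W} {χ : W → Fin 4 → Fin 4}
    (h : Dt t χ ≠ 0) (i : Fin 4) {Y : Finset W} (hY : Y.Nonempty) :
    (univ.filter (fun p : W × Fin 4 => p.1 ∈ Y ∧ χ p.1 p.2 = i ∧
      ∃ u ∈ Y, t p.1 p.2 = some u)).card < Y.card := by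
  classical
  set S := univ.filter (fun p : W × Fin 4 => p.1 ∈ Y ∧ χ p.1 p.2 = i ∧
      ∃ u ∈ Y, t p.1 p.2 = some u) with hS
  have hSm : ∀ p : S, p.1.1 ∈ Y ∧ χ p.1.1 p.1.2 = i ∧ ∃ u ∈ Y, t p.1.1 p.1.2 = some u :=
    fun p => (mem_filter.1 p.2).2
  set M : Matrix (W × Fin 4) (W × Fin 4) ℂ := Matrix.of fun (p q : W × Fin 4) =>
    xr p.1 (t p.1 p.2) q.1 * (if q.2 = χ p.1 p.2 then 1 else 0) with hM
  have hli : LinearIndependent ℂ (fun p => M p) := by
    exact Matrix.linearIndependent_rows_of_det_ne_zero (A := M) h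
  let r : S → Y → ℂ := fun p u => M p.1 (u.1, i)
  have hr : LinearIndependent ℂ r := by
    have h1 : LinearIndependent ℂ (fun p : S => M p.1) :=
      hli.comp (fun p : S => p.1) Subtype.val_injective
    rw [Fintype.linearIndependent_iff] at h1 ⊢
    intro a ha
    refine h1 a ?_
    funext q
    obtain ⟨w, k⟩ := q
    simp only [Finset.sum_apply, Pi.smul_apply, smul_eq_mul, Pi.zero_apply]
    by_cases hk : k = i
    · subst hk
      by_cases hw : w ∈ Y
      · have h2 := congrFun ha ⟨w, hw⟩
        simpa [Finset.sum_apply] using h2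
      · refine sum_eq_zero fun p _ => ?_
        obtain ⟨h2, h3, u, hu, h4⟩ := hSm p
        have h5 : M p.1 (w, k) = 0 := by
          have h6 : p.1.1 ≠ w := fun h => hw (h ▸ h2)
          have h7 : ¬ (some u = some w) := by
            intro h
            simp only [Option.some.injEq] at h
            exact hw (h ▸ hu)
          simp only [hM, Matrix.of_apply, xr]
          rw [if_neg h6, h4, if_neg h7]
          simp
        rw [h5, mul_zero]
    · refine sum_eq_zero fun p _ => ?_
      obtain ⟨_, h3, _⟩ := hSm p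
      have h5 : M p.1 (w, k) = 0 := by
        simp only [hM, Matrix.of_apply]
        rw [if_neg (fun h => hk (h.trans h3)), mul_zero]
      rw [h5, mul_zero]
  let L : (Y → ℂ) →ₗ[ℂ] ℂ := ∑ u : Y, LinearMap.proj u
  have hL : ∀ z, L z = ∑ u, z u := by
    intro z
    simp [L, LinearMap.sum_apply]
  have hker : Submodule.span ℂ (Set.range r) ≤ LinearMap.ker L := by
    rw [Submodule.span_le]
    rintro _ ⟨p, rfl⟩
    obtain ⟨h2, h3, u, hu, h4⟩ := hSm p
    rw [SetLike.mem_coe, LinearMap.mem_ker, hL]
    simp only [r, hM, Matrix.of_apply, h3, if_true, mul_one, xr, h4]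
    rw [sum_sub_distrib]
    have h5 : ∑ x : Y, (if p.1.1 = x.1 then (1 : ℂ) else 0) = 1 := by
      rw [Finset.sum_eq_single ⟨p.1.1, h2⟩]
      · simp
      · intro b _ hb
        rw [if_neg]
        intro h
        exact hb (Subtype.ext h.symm)
      · intro h
        exact absurd (mem_univ _) h
    have h6 : ∑ x : Y, (if some u = some x.1 then (1 : ℂ) else 0) = 1 := by
      rw [Finset.sum_eq_single ⟨u, hu⟩]
      · simp
      · intro b _ hb
        rw [if_neg]
        intro h
        simp only [Option.some.injEq] at h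
        exact hb (Subtype.ext h.symm)
      · intro h
        exact absurd (mem_univ _) h
    rw [h5, h6, sub_self]
  have hne : Submodule.span ℂ (Set.range r) ≠ ⊤ := by
    intro htop
    rw [htop, top_le_iff] at hker
    obtain ⟨v, hv⟩ := hY
    have h2 : (Pi.single (⟨v, hv⟩ : Y) (1 : ℂ) : Y → ℂ) ∈ LinearMap.ker L := by
      rw [hker]
      exact Submodule.mem_top
    rw [LinearMap.mem_ker, hL] at h2
    simp at h2
  have h1 := finrank_span_eq_card hr
  have h2 := Submodule.finrank_lt hne
  rw [h1] at h2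
  simpa using h2

end Pool.Agent.LibE457f
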