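import Pool.Agent.Results.MP_e457e7_co.KTwoFew

/-!
The earlier hand-in KTwo (bound on the numbers of in-neighbours) follows from KTwoFew.
-/

set_option autoImplicit false

namespace Pool.Agent.LibE457f

open Finset

theorem two_old :
    ∀ (V A : Type) [Fintype V] [Fintype A] [DecidableEq V] [DecidableEq A]
      (tail head : A → V) (r0 : V) (c : A → ℕ) (l : ℕ)
      (IsArb : Finset A → Prop),
      (∀ T : Finset A, IsArb T ↔
          ((∀ a ∈ T, head a ≠ r0) ∧
           (∀ v : V, v ≠ r0 → ∃! a : A, a ∈ T ∧ head a = v) ∧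
           (∀ v : V, Relation.ReflTransGen
              (fun x y : V => ∃ a ∈ T, tail a = x ∧ head a = y) r0 v))) →
      (∀ a : A, c a ≤ l) →
      (∑ v ∈ Finset.univ.filter (fun v : V => v ≠ r0),
          (Finset.univ.filter (fun u : V => u ≠ v ∧
            ∃ a : A, 0 < c a ∧ tail a = u ∧ head a = v)).card / 2 ≤ 4) →
      (∃ T : Fin (2 * l) → Finset A,
          (∀ i, IsArb (T i)) ∧
          ∀ a : A, (Finset.univ.filter (fun i => a ∈ T i)).card ≤ c a) →
      ∃ B : Fin l → Fin 2 → Finset A,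
        (∀ i j, IsArb (B i j)) ∧
        (∀ i : Fin l, ∀ j j' : Fin 2, j ≠ j' → Disjoint (B i j) (B i j')) ∧
        ∀ a : A, (Finset.univ.filter
            (fun p : Fin l × Fin 2 => a ∈ B p.1 p.2)).card ≤ c a := by
  intro V A _ _ _ _ tail head r0 c l IsArb hIsArb hc hsum hT
  refine Pool.Agent.Results.MP_e457e7_co.KTwoFew.result V A tail head r0 c l IsArb hIsArb hc
    (le_trans ?_ hsum) hT
  rw [card_eq_sum_ones]
  refine le_trans (sum_le_sum (g := fun v => (Finset.univ.filter (fun u : V => u ≠ v ∧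
            ∃ a : A, 0 < c a ∧ tail a = u ∧ head a = v)).card / 2) ?_)
    (sum_le_sum_of_subset ?_)
  · intro v hv
    obtain ⟨_, _, _, a, b, h1, h2, h3, h4, h5, h6, h7⟩ := mem_filter.1 hv
    have h8 : 1 < (Finset.univ.filter (fun u : V => u ≠ v ∧
            ∃ a : A, 0 < c a ∧ tail a = u ∧ head a = v)).card := by
      rw [one_lt_card]
      exact ⟨tail a, mem_filter.2 ⟨mem_univ _, h3, a, h6, rfl, h1⟩,
        tail b, mem_filter.2 ⟨mem_univ _, h4, b, h7, rfl, h2⟩, h5⟩
    have : 1 ≤ (Finset.univ.filter (fun u : V => u ≠ v ∧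
            ∃ a : A, 0 < c a ∧ tail a = u ∧ head a = v)).card / 2 := by omega
    exact this
  · intro v hv
    exact mem_filter.2 ⟨mem_univ _, (mem_filter.1 hv).2.1⟩

end Pool.Agent.LibE457f
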