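import Pool.Agent.Lib_MP_e457e7_f4.Core4
import Pool.Agent.Lib_MP_e457e7_co_k.Main

/-!
Packing 2-arborescences if at most four nodes have an entering arc of capacity at least two and two
different in-neighbours.
-/

set_option autoImplicit false
set_option linter.unusedSectionVars false

namespace Pool.Agent.LibE457f

open Finset Pool.Agent.LibE457k

variable {V A : Type*} [Fintype V] [DecidableEq V] [Fintype A] [DecidableEq A]

theorem split_four {tail head : A → V} {r : V}
    {x y : A → ℕ} (hx : Good tail head r 2 x) (hy : Good tail head r 2 y)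
    (hC : (univ.filter (fun v : V => v ≠ r ∧
      (∃ a, head a = v ∧ tail a ≠ v ∧ 2 ≤ x a + y a) ∧
      ∃ a b, head a = v ∧ head b = v ∧ tail a ≠ v ∧ tail b ≠ v ∧ tail a ≠ tail b ∧
        0 < x a + y a ∧ 0 < x b + y b)).card ≤ 4) :
    ∃ x' y' : A → ℕ, Good tail head r 2 x' ∧ Good tail head r 2 y' ∧
      (∀ a, x' a + y' a = x a + y a) ∧ ∀ a, x' a ≤ y' a + 1 ∧ y' a ≤ x' a + 1 := by
  classical
  have hz := hx.add hy
  rw [← two_mul] at hz
  obtain ⟨B, hB, hBz⟩ := edmonds (2 * 2) _ hz
  -- the arc with head `v` in `B i`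
  choose α hα1 hα2 using fun (i : Fin (2 * 2)) (v : {v : V // v ≠ r}) => (hB i).uniq v.1 v.2
  have hαmem : ∀ i v, α i v ∈ B i := fun i v => (hα1 i v).1
  have hαhead : ∀ i v, head (α i v) = v.1 := fun i v => (hα1 i v).2
  have hαuniq : ∀ i v a, a ∈ B i → head a = v.1 → a = α i v := fun i v a h1 h2 =>
    hα2 i v a ⟨h1, h2⟩
  let π : Fin (2 * 2) → {v : V // v ≠ r} → Option {v : V // v ≠ r} := fun i v =>
    if h : tail (α i v) = r then none else some ⟨tail (α i v), h⟩
  have hπsome : ∀ i v u, π i v = some u ↔ tail (α i v) = u.1 := by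
    intro i v u
    simp only [π]
    split_ifs with h
    · simp only [false_iff]
      rw [h]
      exact fun h => u.2 h.symm
    · simp only [Option.some.injEq]
      constructor
      · intro h; rw [← h]
      · intro h; exact Subtype.ext h
  have hπ : ∀ i, Rooted (π i) := by
    intro i Y hY
    have hX : (Y.map (Function.Embedding.subtype _)).Nonempty := hY.map
    have hr : r ∉ Y.map (Function.Embedding.subtype _) := by
      intro h
      obtain ⟨u, _, hu⟩ := mem_map.1 h
      exact u.2 hu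
    obtain ⟨a, ha, h1, h2⟩ := (hB i).enters hX hr
    obtain ⟨v, hv, hva⟩ := mem_map.1 h1
    refine ⟨v, hv, fun u hu h => h2 ?_⟩
    have h3 : a = α i v := hαuniq i v a ha hva.symm
    rw [hπsome] at h
    rw [h3, h]
    exact mem_map.2 ⟨u, hu, rfl⟩
  have hC' : (univ.filter (fun v => (∃ i j, π i v ≠ π j v) ∧
      ∃ i j, i ≠ j ∧ α i v = α j v)).card ≤ 4 := by
    refine le_trans (card_le_card_of_injOn (fun v : {v : V // v ≠ r} => v.1) ?_
      (Subtype.val_injective.injOn)) hC
    intro v hv
    obtain ⟨_, ⟨i, j, hij⟩, i', j', hne, heq⟩ := mem_filter.1 (mem_coe.1 hv)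
    have hpos : ∀ i, 0 < x (α i v) + y (α i v) := by
      intro i
      rw [← hBz (α i v)]
      exact card_pos.2 ⟨i, by simp [hαmem i v]⟩
    have hloop : ∀ i, tail (α i v) ≠ v.1 := by
      intro i h
      exact (hπ i).ne_self v ((hπsome i v v).2 h)
    refine mem_coe.2 (mem_filter.2 ⟨mem_univ _, v.2, ⟨α i' v, hαhead i' v, hloop i', ?_⟩,
      α i v, α j v, hαhead i v, hαhead j v, hloop i, hloop j, ?_, hpos i, hpos j⟩)
    · rw [← hBz (α i' v)]
      have h1 : 1 < (univ.filter (fun i => α i' v ∈ B i)).card := by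
        rw [one_lt_card]
        refine ⟨i', by simp [hαmem i' v], j', ?_, hne⟩
        rw [mem_filter]
        refine ⟨mem_univ _, ?_⟩
        rw [heq]
        exact hαmem j' v
      exact h1
    · intro h
      apply hij
      simp only [π, h]
  obtain ⟨χ, hχ1, hχ2, hχ3⟩ := core_four π hπ α hC'
  let cnt : Bool → A → ℕ := fun b a => (univ.filter (fun p : Fin (2 * 2) × {v : V // v ≠ r} =>
    α p.1 p.2 = a ∧ χ p = b)).card
  have hcnt0 : ∀ b a, head a = r → cnt b a = 0 := by
    intro b a ha
    simp only [cnt, card_eq_zero]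
    refine filter_eq_empty_iff.2 ?_
    rintro p _ ⟨h, _⟩
    have := hαhead p.1 p.2
    rw [h, ha] at this
    exact p.2.2 this.symm
  have hcnt1 : ∀ b a (v : {v : V // v ≠ r}), head a = v.1 →
      cnt b a = (univ.filter (fun i => α i v = a ∧ χ (i, v) = b)).card := by
    intro b a v hv
    refine card_bij (fun p _ => p.1) ?_ ?_ ?_
    · intro p hp
      obtain ⟨_, h1, h2⟩ := mem_filter.1 hp
      have h3 : p.2 = v := by
        apply Subtype.ext
        rw [← hv, ← h1, hαhead]
      have h4 : p = (p.1, v) := by rw [← h3]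
      refine mem_filter.2 ⟨mem_univ _, ?_, ?_⟩
      · rw [← h3]; exact h1
      · rw [← h4]; exact h2
    · intro p hp q hq hpq
      obtain ⟨_, h1, _⟩ := mem_filter.1 hp
      obtain ⟨_, h2, _⟩ := mem_filter.1 hq
      refine Prod.ext hpq ?_
      apply Subtype.ext
      rw [← hαhead p.1 p.2, ← hαhead q.1 q.2, h1, h2]
    · intro i hi
      obtain ⟨_, h1, h2⟩ := mem_filter.1 hi
      exact ⟨(i, v), mem_filter.2 ⟨mem_univ _, h1, h2⟩, rfl⟩
  have hsum : ∀ b (Q : A → Prop) [DecidablePred Q], ∑ a ∈ univ.filter Q, cnt b a =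
      (univ.filter (fun p : Fin (2 * 2) × {v : V // v ≠ r} => Q (α p.1 p.2) ∧ χ p = b)).card := by
    intro b Q _
    rw [card_eq_sum_card_fiberwise (f := fun p => α p.1 p.2) (t := univ.filter Q)]
    · refine sum_congr rfl fun a ha => ?_
      have hQ : Q a := (mem_filter.1 ha).2
      simp only [cnt]
      congr 1
      ext p
      simp only [mem_filter, mem_univ, true_and]
      constructor
      · rintro ⟨h1, h2⟩
        exact ⟨⟨h1 ▸ hQ, h2⟩, h1⟩
      · rintro ⟨⟨_, h2⟩, h1⟩
        exact ⟨h1, h2⟩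
    · intro p hp
      have := (mem_filter.1 (mem_coe.1 hp)).2.1
      exact mem_coe.2 (mem_filter.2 ⟨mem_univ _, this⟩)
  have hgood : ∀ b, Good tail head r 2 (cnt b) := by
    intro b
    refine ⟨hcnt0 b, ?_, ?_⟩
    · intro v hv
      rw [hsum b (fun a => head a = v)]
      refine Eq.trans ?_ (hχ1 b ⟨v, hv⟩)
      refine card_bij (fun p _ => p.1) ?_ ?_ ?_
      · intro p hp
        obtain ⟨_, h1, h2⟩ := mem_filter.1 hp
        have h3 : p.2 = ⟨v, hv⟩ := by
          apply Subtype.ext
          rw [← hαhead p.1 p.2, h1]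
        have h4 : p = (p.1, ⟨v, hv⟩) := by rw [← h3]
        refine mem_filter.2 ⟨mem_univ _, ?_⟩
        rw [← h4]; exact h2
      · intro p hp q hq hpq
        obtain ⟨_, h1, _⟩ := mem_filter.1 hp
        obtain ⟨_, h2, _⟩ := mem_filter.1 hq
        refine Prod.ext hpq ?_
        apply Subtype.ext
        rw [← hαhead p.1 p.2, ← hαhead q.1 q.2, h1, h2]
      · intro i hi
        obtain ⟨_, h2⟩ := mem_filter.1 hi
        exact ⟨(i, ⟨v, hv⟩), mem_filter.2 ⟨mem_univ _, hαhead _ _, h2⟩, rfl⟩
    · intro X hX hrX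
      unfold rho
      rw [hsum b (fun a => head a ∈ X ∧ tail a ∉ X)]
      set Y : Finset {v : V // v ≠ r} := univ.filter (fun w => w.1 ∈ X) with hY
      have hYne : Y.Nonempty := by
        obtain ⟨v, hv⟩ := hX
        exact ⟨⟨v, fun h => hrX (h ▸ hv)⟩, by simp [hY, hv]⟩
      have h1 : ((inn π Y).filter (fun p : Fin (2 * 2) × {v : V // v ≠ r} => χ p = b)).card ≤
          2 * (Y.card - 1) := hχ3 b Y hYne
      have h2 : (univ.filter (fun p : Fin (2 * 2) × {v : V // v ≠ r} =>
          p.2 ∈ Y ∧ χ p = b)).card = 2 * Y.card := by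
        have h3 : (univ.filter (fun p : Fin (2 * 2) × {v : V // v ≠ r} =>
            p.2 ∈ Y ∧ χ p = b)).card = (Y.sigma (fun v => univ.filter
              (fun i => χ (i, v) = b))).card := by
          refine card_bij (fun p _ => (⟨p.2, p.1⟩ : (_ : {v : V // v ≠ r}) × Fin (2 * 2)))
            ?_ ?_ ?_
          · intro p hp
            obtain ⟨_, h1, h2⟩ := mem_filter.1 hp
            exact mem_sigma.2 ⟨h1, mem_filter.2 ⟨mem_univ _, h2⟩⟩
          · intro p _ q _ hpq
            simp only [Sigma.mk.injEq, heq_eq_eq] at hpq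
            exact Prod.ext hpq.2 hpq.1
          · rintro ⟨v, i⟩ hx
            obtain ⟨h1, h2⟩ := mem_sigma.1 hx
            exact ⟨(i, v), mem_filter.2 ⟨mem_univ _, h1, (mem_filter.1 h2).2⟩, rfl⟩
        rw [h3, card_sigma]
        simp only [hχ1]
        rw [sum_const, smul_eq_mul, mul_comm]
      have h3 : (univ.filter (fun p : Fin (2 * 2) × {v : V // v ≠ r} =>
          p.2 ∈ Y ∧ χ p = b)) ⊆
          (univ.filter (fun p : Fin (2 * 2) × {v : V // v ≠ r} =>
            (head (α p.1 p.2) ∈ X ∧ tail (α p.1 p.2) ∉ X) ∧ χ p = b)) ∪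
          ((inn π Y).filter (fun p => χ p = b)) := by
        intro p hp
        obtain ⟨_, h4, h5⟩ := mem_filter.1 hp
        have h6 : p.2.1 ∈ X := by simpa [hY] using h4
        by_cases h7 : tail (α p.1 p.2) ∈ X
        · refine mem_union_right _ (mem_filter.2 ⟨mem_inn.2 ⟨h4, ?_⟩, h5⟩)
          have h8 : tail (α p.1 p.2) ≠ r := fun h => hrX (h ▸ h7)
          refine ⟨⟨tail (α p.1 p.2), h8⟩, by simp [hY, h7], ?_⟩
          rw [hπsome]
        · refine mem_union_left _ (mem_filter.2 ⟨mem_univ _, ⟨?_, h7⟩, h5⟩)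
          rw [hαhead]; exact h6
      have h4 := (card_le_card h3).trans (card_union_le _ _)
      rw [h2] at h4
      have h5 : 1 ≤ Y.card := card_pos.2 hYne
      obtain ⟨m, hm⟩ : ∃ m, Y.card = m + 1 := ⟨Y.card - 1, by omega⟩
      rw [hm] at h4 h1
      simp only [Nat.add_sub_cancel] at h1
      rw [mul_add, mul_one] at h4
      omega
  refine ⟨cnt true, cnt false, hgood true, hgood false, ?_, ?_⟩
  · intro a
    by_cases ha : head a = r
    · rw [hcnt0 _ a ha, hcnt0 _ a ha]
      have := hz.root a ha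
      simpa using this.symm
    · rw [hcnt1 true a ⟨head a, ha⟩ rfl, hcnt1 false a ⟨head a, ha⟩ rfl]
      rw [← hBz a]
      have h1 : (univ.filter (fun i => a ∈ B i)) =
          univ.filter (fun i => α i ⟨head a, ha⟩ = a) := by
        refine filter_congr fun i _ => ?_
        constructor
        · intro h
          exact (hαuniq i ⟨head a, ha⟩ a h rfl).symm
        · intro h
          rw [← h]
          exact hαmem _ _
      rw [h1, ← card_filter_add_card_filter_not (s := univ.filter
        (fun i => α i ⟨head a, ha⟩ = a)) (fun i => χ (i, ⟨head a, ha⟩) = true),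
        filter_filter, filter_filter]
      congr 2
      refine filter_congr fun i _ => ?_
      simp
  · intro a
    by_cases ha : head a = r
    · rw [hcnt0 _ a ha, hcnt0 _ a ha]
      omega
    · rw [hcnt1 true a ⟨head a, ha⟩ rfl, hcnt1 false a ⟨head a, ha⟩ rfl]
      exact ⟨hχ2 true ⟨head a, ha⟩ a, hχ2 false ⟨head a, ha⟩ a⟩

/-- Reduction to vectors with entries in `{0,1}`. -/
theorem reduce_four {tail head : A → V} {r : V} {l : ℕ} {c : A → ℕ} (hc : ∀ a, c a ≤ l)
    (hC : (univ.filter (fun v : V => v ≠ r ∧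
      (∃ a, head a = v ∧ tail a ≠ v ∧ 2 ≤ c a) ∧
      ∃ a b, head a = v ∧ head b = v ∧ tail a ≠ v ∧ tail b ≠ v ∧ tail a ≠ tail b ∧
        0 < c a ∧ 0 < c b)).card ≤ 4) :
    ∀ n : ℕ, ∀ x : Fin l → A → ℕ, (∀ i, Good tail head r 2 (x i)) →
      (∀ a, ∑ i, x i a ≤ c a) → (∑ i, ∑ a, x i a * x i a) ≤ n →
      ∃ x' : Fin l → A → ℕ, (∀ i, Good tail head r 2 (x' i)) ∧
        (∀ a, ∑ i, x' i a ≤ c a) ∧ ∀ i a, x' i a ≤ 1 := by
  classical
  intro n
  induction n with
  | zero =>
    intro x hx hxc hn
    refine ⟨x, hx, hxc, fun i a => ?_⟩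
    have h1 : ∑ i, ∑ a, x i a * x i a = 0 := by omega
    have h2 := (sum_eq_zero_iff.1 h1) i (mem_univ _)
    have h3 := (sum_eq_zero_iff.1 h2) a (mem_univ _)
    have h4 : x i a = 0 := by
      rcases Nat.mul_eq_zero.1 h3 with h | h <;> exact h
    omega
  | succ n ih =>
    intro x hx hxc hn
    by_cases hall : ∀ i a, x i a ≤ 1
    · exact ⟨x, hx, hxc, hall⟩
    push Not at hall
    obtain ⟨i, a, hia⟩ := hall
    have hj : ∃ j, x j a = 0 := by
      by_contra hcon
      push Not at hcon
      have h1 : ∑ m : Fin l, (1 + if m = i then 1 else 0) ≤ ∑ m, x m a := by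
        refine sum_le_sum fun m _ => ?_
        have := hcon m
        split_ifs with h
        · subst h; omega
        · omega
      rw [sum_add_distrib, sum_ite_eq' univ i, sum_const, card_univ, Fintype.card_fin] at h1
      simp only [mem_univ, if_true, smul_eq_mul, mul_one] at h1
      have h2 := hxc a
      have h3 := hc a
      omega
    obtain ⟨j, hja⟩ := hj
    have hij : i ≠ j := by
      rintro rfl
      omega
    have hle : ∀ b, x i b + x j b ≤ c b := by
      intro b
      have h1 := hxc b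
      rw [sum_two hij (fun m => x m b)] at h1
      omega
    obtain ⟨p, q, hp, hq, hpq, hbal⟩ := split_four (hx i) (hx j) (by
      refine le_trans (card_le_card ?_) hC
      intro v hv
      obtain ⟨_, h1, ⟨b, h2, h2', h3⟩, b1, b2, h4, h5, h4', h5', h8, h6, h7⟩ := mem_filter.1 hv
      refine mem_filter.2 ⟨mem_univ _, h1, ⟨b, h2, h2', h3.trans (hle b)⟩, b1, b2, h4, h5,
        h4', h5', h8, h6.trans_le (hle b1), h7.trans_le (hle b2)⟩)
    let x' : Fin l → A → ℕ := Function.update (Function.update x i p) j q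
    have hx'i : x' i = p := by simp [x', hij]
    have hx'j : x' j = q := by simp [x']
    have hx'm : ∀ m, m ∉ ({i, j} : Finset (Fin l)) → x' m = x m := by
      intro m hm
      simp only [mem_insert, mem_singleton, not_or] at hm
      simp [x', hm.1, hm.2]
    have hsame : ∀ f : (A → ℕ) → ℕ, ∑ m ∈ ({i, j} : Finset (Fin l))ᶜ, f (x' m) =
        ∑ m ∈ ({i, j} : Finset (Fin l))ᶜ, f (x m) := by
      intro f
      refine sum_congr rfl fun m hm => ?_
      rw [hx'm m (mem_compl.1 hm)]
    refine ih x' ?_ ?_ ?_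
    · intro m
      by_cases hm : m ∈ ({i, j} : Finset (Fin l))
      · rcases mem_insert.1 hm with rfl | hm
        · rw [hx'i]; exact hp
        · have : m = j := by simpa using hm
          subst this
          rw [hx'j]; exact hq
      · rw [hx'm m hm]; exact hx m
    · intro b
      refine le_trans (le_of_eq ?_) (hxc b)
      rw [sum_two hij (fun m => x' m b), sum_two hij (fun m => x m b)]
      have h1 := hsame (fun z => z b)
      simp only [h1, hx'i, hx'j]
      have := hpq b
      omega
    · have hlt : ∑ m, ∑ b, x' m b * x' m b < ∑ m, ∑ b, x m b * x m b := by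
        rw [sum_two hij (fun m => ∑ b, x' m b * x' m b),
          sum_two hij (fun m => ∑ b, x m b * x m b)]
        have h1 := hsame (fun z => ∑ b, z b * z b)
        simp only [h1, hx'i, hx'j]
        refine Nat.add_lt_add_right ?_ _
        rw [← sum_add_distrib, ← sum_add_distrib]
        refine sum_lt_sum (fun b _ => ?_) ⟨a, mem_univ _, ?_⟩
        · exact sq_le_of_balanced (hpq b) (hbal b).1 (hbal b).2
        · have h2 := hpq a
          rw [hja, add_zero] at h2
          rw [hja]
          simpa using sq_lt_of_balanced h2 (by omega) (hbal a).1 (hbal a).2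
      omega

/-- Packing theorem. -/
theorem packing_four {tail head : A → V} {r : V} {c : A → ℕ} {l : ℕ} (hc : ∀ a, c a ≤ l)
    (hC : (univ.filter (fun v : V => v ≠ r ∧
      (∃ a, head a = v ∧ tail a ≠ v ∧ 2 ≤ c a) ∧
      ∃ a b, head a = v ∧ head b = v ∧ tail a ≠ v ∧ tail b ≠ v ∧ tail a ≠ tail b ∧
        0 < c a ∧ 0 < c b)).card ≤ 4)
    (T : Fin (2 * l) → Finset A) (hT : ∀ i, IsArb tail head r (T i))
    (hTc : ∀ a, (univ.filter (fun i => a ∈ T i)).card ≤ c a) :
    ∃ B : Fin l → Fin 2 → Finset A,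
      (∀ i j, IsArb tail head r (B i j)) ∧
      (∀ i : Fin l, ∀ j j' : Fin 2, j ≠ j' → Disjoint (B i j) (B i j')) ∧
      ∀ a : A, (univ.filter (fun p : Fin l × Fin 2 => a ∈ B p.1 p.2)).card ≤ c a := by
  classical
  let x : Fin l → A → ℕ := fun i a =>
    (univ.filter (fun j : Fin 2 => a ∈ T (finProdFinEquiv (j, i)))).card
  have hx : ∀ i, Good tail head r 2 (x i) := fun i => good_of_arbs (fun j => hT _)
  have hxc : ∀ a, ∑ i, x i a ≤ c a := by
    intro a
    refine le_trans (le_of_eq ?_) (hTc a)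
    simp only [x, card_filter]
    rw [sum_comm, ← Fintype.sum_prod_type' (f := fun (j : Fin 2) (i : Fin l) =>
      if a ∈ T (finProdFinEquiv (j, i)) then 1 else 0)]
    exact Fintype.sum_equiv finProdFinEquiv _ _ (fun p => rfl)
  obtain ⟨x', hx', hxc', hx1⟩ := reduce_four hc hC _ x hx hxc le_rfl
  choose B hB hBx using fun i => edmonds 2 (x' i) (hx' i)
  refine ⟨B, hB, ?_, ?_⟩
  · intro i j j' hjj
    rw [Finset.disjoint_left]
    intro a ha ha'
    have h1 : (univ.filter (fun j => a ∈ B i j)).card ≤ 1 := by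
      rw [hBx i a]; exact hx1 i a
    exact hjj (card_le_one.1 h1 j (by simp [ha]) j' (by simp [ha']))
  · intro a
    have h1 : (univ.filter (fun p : Fin l × Fin 2 => a ∈ B p.1 p.2)).card =
        ∑ i, (univ.filter (fun j => a ∈ B i j)).card := by
      simp only [card_filter]
      rw [Fintype.sum_prod_type]
    rw [h1]
    simp only [hBx]
    exact hxc' a

end Pool.Agent.LibE457f
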