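import Pool.Agent.Lib_MP_e457e7_f4.Det
import Pool.Agent.Lib_MP_e457e7_co_k.Rooted

/-!
The value of the invariant at the sign tensors counts decompositions into four arborescences.
-/

set_option autoImplicit false
set_option linter.unusedSectionVars false

namespace Pool.Agent.LibE457f

open Finset Matrix Pool.Agent.LibE457k

variable {W : Type*} [Fintype W] [DecidableEq W]

theorem det_rooted {p : W → Option W} (hp : Rooted p) :
    (Matrix.of fun v u => xr v (p v) u).det = 1 := by
  rw [Matrix.det_apply]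
  rw [Finset.sum_eq_single 1]
  · simp only [Equiv.Perm.sign_one, one_smul, Equiv.Perm.coe_one, id_eq, Matrix.of_apply]
    refine prod_eq_one fun v _ => ?_
    unfold xr
    rw [if_pos rfl, if_neg (hp.ne_self v), sub_zero]
  · intro σ _ hσ
    have hY : σ.support.Nonempty := by
      rw [Finset.nonempty_iff_ne_empty]
      intro h
      exact hσ (Equiv.Perm.support_eq_empty_iff.1 h)
    obtain ⟨v, hv, hvu⟩ := hp _ hY
    have hi : σ⁻¹ v ∈ σ.support := by
      rw [← Equiv.Perm.apply_mem_support]
      simpa using hv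
    have hinv : σ (σ⁻¹ v) = v := by simp
    rw [Finset.prod_eq_zero (mem_univ (σ⁻¹ v)), smul_zero]
    simp only [Matrix.of_apply]
    unfold xr
    rw [hinv]
    have h1 : v ≠ σ⁻¹ v := by
      intro h
      have h2 := Equiv.Perm.mem_support.1 hi
      rw [hinv] at h2
      exact h2 h
    rw [if_neg h1, if_neg (hvu _ hi), sub_zero]
  · intro h
    exact absurd (mem_univ _) h

theorem det_not_rooted {p : W → Option W} (hp : ¬ Rooted p) :
    (Matrix.of fun v u => xr v (p v) u).det = 0 := by
  classical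
  unfold Rooted at hp
  push Not at hp
  obtain ⟨Y, hY, hYp⟩ := hp
  let cl : Finset W → Prop := fun Y => ∀ v ∈ Y, ∃ u ∈ Y, p v = some u
  let Z : Finset W := univ.filter (fun v => ∃ Y, cl Y ∧ v ∈ Y)
  have hZ : ∀ v, v ∈ Z ↔ ∃ Y, cl Y ∧ v ∈ Y := by
    intro v
    simp [Z]
  have h1 : ∀ v ∈ Z, ∃ u ∈ Z, p v = some u := by
    intro v hv
    obtain ⟨Y, hY, hvY⟩ := (hZ v).1 hv
    obtain ⟨u, hu, h⟩ := hY v hvY
    exact ⟨u, (hZ u).2 ⟨Y, hY, hu⟩, h⟩
  have h2 : ∀ v u, p v = some u → u ∈ Z → v ∈ Z := by
    intro v u hvu hu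
    obtain ⟨Y, hY, huY⟩ := (hZ u).1 hu
    refine (hZ v).2 ⟨insert v Y, ?_, mem_insert_self _ _⟩
    intro w hw
    rcases mem_insert.1 hw with rfl | hw
    · exact ⟨u, mem_insert_of_mem huY, hvu⟩
    · obtain ⟨x, hx, h⟩ := hY w hw
      exact ⟨x, mem_insert_of_mem hx, h⟩
  refine Matrix.exists_mulVec_eq_zero_iff.1 ⟨fun v => if v ∈ Z then 1 else 0, ?_, ?_⟩
  · intro h
    obtain ⟨v, hv⟩ := hY
    have h3 := congrFun h v
    have h4 : v ∈ Z := (hZ v).2 ⟨Y, hYp, hv⟩
    simp [h4] at h3
  · funext v
    simp only [Matrix.mulVec, dotProduct, Matrix.of_apply, xr, Pi.zero_apply, sub_mul]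
    rw [sum_sub_distrib]
    have h3 : ∑ u, (if v = u then (1 : ℂ) else 0) * (if u ∈ Z then 1 else 0) =
        if v ∈ Z then 1 else 0 := by
      simp
    rw [h3]
    cases h : p v with
    | none =>
      have h4 : v ∉ Z := by
        intro hv
        obtain ⟨u, _, hu⟩ := h1 v hv
        rw [h] at hu
        cases hu
      simp [h4]
    | some w =>
      have h4 : v ∈ Z ↔ w ∈ Z := by
        constructor
        · intro hv
          obtain ⟨u, hu, hu'⟩ := h1 v hv
          rw [h] at hu'
          cases hu'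
          exact hu
        · exact h2 v w h
      have h5 : ∑ u, (if some w = some u then (1 : ℂ) else 0) * (if u ∈ Z then 1 else 0) =
          if w ∈ Z then 1 else 0 := by
        simp
      rw [h5]
      by_cases hw : w ∈ Z
      · simp [h4, hw]
      · simp [h4, hw]

theorem eps_sq {χ : Fin 4 → Fin 4} (h : Function.Injective χ) : eps χ * eps χ = 1 := by
  unfold eps
  have h1 : (Matrix.of fun i j => if j = χ i then (1 : ℂ) else 0) *
      (Matrix.of fun i j => if j = χ i then (1 : ℂ) else 0)ᵀ = 1 := by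
    ext i j
    simp only [Matrix.mul_apply, Matrix.of_apply, Matrix.transpose_apply, Matrix.one_apply]
    by_cases hij : i = j
    · subst hij
      simp
    · have h2 : χ i ≠ χ j := fun h2 => hij (h h2)
      rw [if_neg hij]
      refine sum_eq_zero fun k _ => ?_
      by_cases hk : k = χ i
      · subst hk
        simp [h2]
      · simp [hk]
  have h2 := congrArg Matrix.det h1
  rw [Matrix.det_mul, Matrix.det_transpose, Matrix.det_one] at h2
  exact h2

theorem Dt_perm (t : W → Fin 4 → Option W) (e : W → Equiv.Perm (Fin 4)) :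
    Dt t (fun v => e v) = (∏ v, eps (e v)) *
      ∏ i, (Matrix.of fun v u => xr v (t v ((e v).symm i)) u).det := by
  have h1 : (Matrix.of fun (p q : W × Fin 4) => xr p.1 (t p.1 p.2) q.1 *
      (if q.2 = e p.1 p.2 then (1 : ℂ) else 0)) =
      ((Matrix.blockDiagonal fun v : W => (Matrix.of fun (i j : Fin 4) =>
        if j = e v i then (1 : ℂ) else 0)).submatrix (Equiv.prodComm W (Fin 4))
          (Equiv.prodComm W (Fin 4))) *
      Matrix.blockDiagonal (fun i : Fin 4 =>
        Matrix.of fun v u => xr v (t v ((e v).symm i)) u) := by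
    ext p q
    obtain ⟨v, j⟩ := p
    obtain ⟨u, i'⟩ := q
    rw [Matrix.mul_apply, Fintype.sum_prod_type, Finset.sum_eq_single v,
      Finset.sum_eq_single (e v j)]
    · simp only [Matrix.of_apply, Matrix.submatrix_apply, Equiv.prodComm_apply, Prod.swap_prod_mk,
        Matrix.blockDiagonal_apply, if_true, Equiv.symm_apply_apply, one_mul]
      by_cases h : i' = e v j
      · simp [h]
      · rw [if_neg h, if_neg (fun h' => h h'.symm), mul_zero]
    · intro i _ hi
      simp only [Matrix.of_apply, Matrix.submatrix_apply, Equiv.prodComm_apply, Prod.swap_prod_mk,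
        Matrix.blockDiagonal_apply, if_true]
      rw [if_neg hi, zero_mul]
    · intro h
      exact absurd (mem_univ _) h
    · intro w _ hw
      refine sum_eq_zero fun i _ => ?_
      simp only [Matrix.submatrix_apply, Equiv.prodComm_apply, Prod.swap_prod_mk,
        Matrix.blockDiagonal_apply]
      rw [if_neg (fun h => hw h.symm), zero_mul]
    · intro h
      exact absurd (mem_univ _) h
  unfold Dt DD
  rw [h1, Matrix.det_mul, Matrix.det_submatrix_equiv_self, Matrix.det_blockDiagonal,
    Matrix.det_blockDiagonal]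
  rfl

theorem Psi_eps_ne (t : W → Fin 4 → Option W) (e0 : W → Equiv.Perm (Fin 4))
    (h : ∀ i, Rooted (fun v => t v ((e0 v).symm i))) : Psi t (fun _ => eps) ≠ 0 := by
  classical
  have hterm : ∀ χ : W → Fin 4 → Fin 4, ∃ n : ℕ, (∏ v, eps (χ v)) * Dt t χ = n := by
    intro χ
    by_cases hχ : ∀ v, Function.Injective (χ v)
    · let e : W → Equiv.Perm (Fin 4) := fun v =>
        Equiv.ofBijective (χ v) (Finite.injective_iff_bijective.1 (hχ v))
      have he : χ = fun v => ⇑(e v) := by
        funext v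
        rfl
      rw [he, Dt_perm, ← mul_assoc, ← prod_mul_distrib]
      have h1 : ∏ v, eps (e v) * eps (e v) = 1 := prod_eq_one fun v _ => eps_sq (hχ v)
      rw [h1, one_mul]
      by_cases h2 : ∀ i, Rooted (fun v => t v ((e v).symm i))
      · refine ⟨1, ?_⟩
        rw [prod_eq_one fun i _ => det_rooted (h2 i)]
        simp
      · push Not at h2
        obtain ⟨i, hi⟩ := h2
        refine ⟨0, ?_⟩
        rw [prod_eq_zero (mem_univ i) (det_not_rooted hi)]
        simp
    · push Not at hχ
      obtain ⟨v, hv⟩ := hχ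
      refine ⟨0, ?_⟩
      have h1 : eps (χ v) = 0 := by
        by_contra h2
        exact hv (eps_inj h2)
      rw [prod_eq_zero (mem_univ v) h1]
      simp
  choose n hn using hterm
  have h0 : (n (fun v => e0 v) : ℂ) = 1 := by
    rw [← hn, Dt_perm, ← mul_assoc, ← prod_mul_distrib]
    have h1 : ∏ v, eps (e0 v) * eps (e0 v) = 1 := prod_eq_one fun v _ => eps_sq (e0 v).injective
    rw [h1, one_mul, prod_eq_one fun i _ => det_rooted (h i)]
  have h0' : n (fun v => e0 v) = 1 := by exact_mod_cast h0
  unfold Psi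
  simp only [hn]
  have h2 : (∑ χ, (n χ : ℂ)) = ((∑ χ, n χ : ℕ) : ℂ) := by push_cast; rfl
  rw [h2]
  have h3 : n (fun v => e0 v) ≤ ∑ χ, n χ :=
    single_le_sum (fun _ _ => Nat.zero_le _) (mem_univ _)
  have h4 : (∑ χ, n χ) ≠ 0 := by omega
  exact_mod_cast h4

end Pool.Agent.LibE457f
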